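import Pool.Agent.MP_db5b97_nt.H31.SpecT

/-! Injectivity in degree zero from injectivity in degree one, by dimension shifting. -/

namespace Pool.Agent.MP_db5b97_nt.H18

open H31

/-- a free model of the quotient of the induced module by the diagonal -/
def Md (P M : Type) [Group P] : Type := {t : P // t ≠ 1} → M

variable {P M A B : Type} [Group P] [Fintype P] [AddCommGroup M] [AddCommGroup A] [AddCommGroup B]

namespace Md

instance : AddCommGroup (Md P M) := inferInstanceAs (AddCommGroup ({t : P // t ≠ 1} → M))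

instance [Module.Free ℤ M] : Module.Free ℤ (Md P M) :=
  inferInstanceAs (Module.Free ℤ ({t : P // t ≠ 1} → M))

open Classical in
/-- one coordinate -/
noncomputable def sg (t : {t : P // t ≠ 1}) : M →+ Md P M :=
  AddMonoidHom.single (fun _ : {t : P // t ≠ 1} => M) t

/-- evaluation -/
def pr (t : {t : P // t ≠ 1}) : Md P M →+ M :=
  Pi.evalAddMonoidHom (fun _ : {t : P // t ≠ 1} => M) t

open Classical in
/-- the image of the summand number `t` -/
noncomputable def jj (t : P) : M →+ Md P M :=
  if h : t = 1 then -∑ s : {t : P // t ≠ 1}, sg s else sg ⟨t, h⟩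

open Classical in
theorem split (f : P → A) : ∑ t, f t = f 1 + ∑ s : {t : P // t ≠ 1}, f s.1 :=
  Fintype.sum_eq_add_sum_subtype_ne f 1

open Classical in
theorem jj_one (m : M) : (jj (1 : P) m : Md P M) = -∑ s : {t : P // t ≠ 1}, sg s m := by
  simp [jj, AddMonoidHom.finsetSum_apply]

omit [Fintype P] in
theorem jj_ne [Fintype P] (s : {t : P // t ≠ 1}) (m : M) : (jj s.1 m : Md P M) = sg s m := by
  simp [jj, s.2]

theorem sum_jj (m : M) : ∑ t : P, (jj t m : Md P M) = 0 := by
  rw [split, jj_one]
  simp [jj_ne]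

open Classical in
/-- the homomorphism with given components -/
noncomputable def lf (f : P → M →+ A) : Md P M →+ A :=
  ∑ s : {t : P // t ≠ 1}, (f s.1).comp (pr s)

theorem lf_sg (f : P → M →+ A) (s : {t : P // t ≠ 1}) (m : M) : lf f (sg s m) = f s.1 m := by
  classical
  rw [lf, AddMonoidHom.finsetSum_apply, Finset.sum_eq_single s]
  · exact congrArg (f s.1) (Pi.single_eq_same (M := fun _ : {t : P // t ≠ 1} => M) s m)
  · intro b _ hb
    have e : pr b (sg s m : Md P M) = 0 :=
      Pi.single_eq_of_ne (M := fun _ : {t : P // t ≠ 1} => M) hb m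
    rw [AddMonoidHom.comp_apply, e, map_zero]
  · simp

theorem lf_jj (f : P → M →+ A) (hf : ∀ m, ∑ t, f t m = 0) (t : P) (m : M) :
    lf f (jj t m) = f t m := by
  by_cases h : t = 1
  · subst h
    have e := hf m
    rw [split] at e
    rw [jj_one, map_neg, map_sum]
    simp only [lf_sg]
    exact (eq_neg_of_add_eq_zero_left e).symm
  · exact (congrArg (lf f) (jj_ne ⟨t, h⟩ m)).trans (lf_sg f ⟨t, h⟩ m)

theorem hom_ext {f g : Md P M →+ A} (h : ∀ t m, f (jj t m) = g (jj t m)) : f = g := by
  classical
  refine AddMonoidHom.functions_ext (M := fun _ : {t : P // t ≠ 1} => M) A f g fun s m => ?_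
  have e := h s.1 m
  rw [jj_ne] at e
  exact e

variable [DistribMulAction P M]

/-- the action of one element -/
noncomputable def ac (s : P) : Md P M →+ Md P M :=
  lf fun t => (jj (s * t)).comp (DistribSMul.toAddMonoidHom M s)

theorem ac_jj (s t : P) (m : M) : ac s (jj t m : Md P M) = jj (s * t) (s • m) := by
  refine lf_jj _ (fun m => ?_) t m
  exact (Equiv.sum_comp (Equiv.mulLeft s) fun t => (jj t (s • m) : Md P M)).trans (sum_jj _)

noncomputable instance : DistribMulAction P (Md P M) where
  smul s x := ac s x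
  one_smul x := DFunLike.congr_fun (hom_ext (f := ac (1 : P)) (g := AddMonoidHom.id _)
    fun t m => by rw [ac_jj, one_mul, one_smul, AddMonoidHom.id_apply]) x
  mul_smul s t x := DFunLike.congr_fun (hom_ext (f := ac (s * t)) (g := (ac s).comp (ac t))
    fun r m => by rw [AddMonoidHom.comp_apply, ac_jj, ac_jj, ac_jj, mul_assoc, mul_smul]) x
  smul_zero s := (ac s).map_zero
  smul_add s := (ac s).map_add

theorem smul_jj (s t : P) (m : M) : s • (jj t m : Md P M) = jj (s * t) (s • m) := ac_jj s t m

end Md

open Md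

/-- the component number `t` of a homomorphism -/
noncomputable def ev (t : P) : Hm (Md P M) A →+ Hm M A where
  toFun F := Hm.of (F.hom.comp (jj t))
  map_zero' := rfl
  map_add' _ _ := rfl

theorem ev_apply (t : P) (F : Hm (Md P M) A) (m : M) : ev t F m = F (jj t m) := rfl

theorem ev_ext {F G : Hm (Md P M) A} (h : ∀ t, ev t F = ev t G) : F = G :=
  hom_ext (f := F.hom) (g := G.hom) fun t m => DFunLike.congr_fun (h t) m

theorem ev_post (φ : A →+ B) (t : P) (F : Hm (Md P M) A) :
    ev t (Hm.post φ F) = Hm.post φ (ev t F) := rfl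

theorem ev_sum (F : Hm (Md P M) A) : ∑ t, ev t F = 0 := by
  ext m
  rw [Hm.sum_apply]
  simp only [ev_apply]
  rw [← map_sum, sum_jj, map_zero, Hm.zero_apply]

theorem ev_lift (f : P → Hm M A) (hf : ∑ t, f t = 0) :
    ∃ F : Hm (Md P M) A, ∀ t, ev t F = f t := by
  refine ⟨Hm.of (lf fun t => (f t).hom), fun t => Hm.ext fun m => lf_jj _ (fun m => ?_) t m⟩
  have e := DFunLike.congr_fun hf m
  rwa [Hm.sum_apply] at e

variable [DistribMulAction P M] [DistribMulAction P A] [DistribMulAction P B]

theorem ev_smul (s t : P) (F : Hm (Md P M) A) : ev t (s • F) = s • ev (s⁻¹ * t) F := by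
  ext m
  rw [ev_apply, Hm.smul_apply, smul_jj, Hm.smul_apply, ev_apply]

omit [Fintype P] in
theorem post_smul (φ : A →+ B) (h : ∀ (s : P) x, φ (s • x) = s • φ x) (s : P) (f : Hm M A) :
    Hm.post φ (s • f) = s • Hm.post φ f := by
  ext m
  simp [h]

omit [Fintype P] in
theorem shift [DecidableEq P] (w e : Hm M A) (hw : ∀ s : P, s • w = w) (s t : P) :
    s • ((if s⁻¹ * t = 1 then w else 0) - (s⁻¹ * t) • e) - ((if t = 1 then w else 0) - t • e)
      = (if t = s then w else 0) - (if t = 1 then w else 0) := by
  have e1 : s • (if s⁻¹ * t = 1 then w else 0) = if t = s then w else 0 := by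
    by_cases h : t = s
    · subst h
      simp [hw]
    · rw [if_neg h, if_neg fun h' => h (inv_mul_eq_one.1 h').symm, smul_zero]
  rw [smul_sub, e1, smul_smul, mul_inv_cancel_left]
  abel

theorem rowGCT2 : RowGCT1 → RowGCT2 := by
  intro h1 p P U' I' U I M _ _ _ _ _ _ _ _ _ _ _ _ _ a' a nU nI H z ε β y hz ha hn hy
  classical
  have hc : ∀ s : P, ∃ F : Hm (Md P M) U',
      ∀ t, ev t F = (if t = s then z else 0) - (if t = 1 then z else 0) := fun s =>
    ev_lift _ (by simp [Finset.sum_sub_distrib])
  choose c hc using hc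
  obtain ⟨D, hD⟩ := ev_lift (fun t : P => (if t = 1 then Hm.post a' z else 0) - t • ε)
    (by simp [Finset.sum_sub_distrib, ha, tr_apply])
  obtain ⟨β', hβ⟩ := ev_lift (fun t : P => (if t = 1 then Hm.post nU z else 0) - t • β)
    (by simp [Finset.sum_sub_distrib, hn, tr_apply])
  obtain ⟨y', hy'⟩ := ev_lift (fun t : P => y t⁻¹ - if t = 1 then ∑ s, y s else 0) (by
    have e : ∑ t : P, y t⁻¹ = ∑ t, y t := Equiv.sum_comp (Equiv.inv P) y
    rw [Finset.sum_sub_distrib, e]
    simp)
  have z1 : ∀ s : P, s • Hm.post a' z = Hm.post a' z := fun s => by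
    rw [← post_smul a' H.e1, hz]
  have z2 : ∀ s : P, s • Hm.post nU z = Hm.post nU z := fun s => by
    rw [← post_smul nU H.e3, hz]
  obtain ⟨u, -, hu, -⟩ := h1 p P U' I' U I (Md P M) a' a nU nI H c D β' y' (by
      intro s r
      refine ev_ext fun t => ?_
      rw [map_add, ev_smul, hc, hc, hc, smul_sub]
      have e1 : s • (if s⁻¹ * t = r then z else 0) = if t = s * r then z else 0 := by
        by_cases h : t = s * r
        · subst h
          simp [hz]
        · rw [if_neg h, if_neg fun h' => h (by rw [← h', mul_inv_cancel_left]), smul_zero]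
      have e2 : s • (if s⁻¹ * t = 1 then z else 0) = if t = s then z else 0 := by
        by_cases h : t = s
        · subst h
          simp [hz]
        · rw [if_neg h, if_neg fun h' => h (inv_mul_eq_one.1 h').symm, smul_zero]
      rw [e1, e2]
      abel)
    (by
      intro s
      refine ev_ext fun t => ?_
      rw [ev_post, map_sub, ev_smul, hc, hD, hD, shift _ _ z1, map_sub, apply_ite (Hm.post a'),
        apply_ite (Hm.post a'), map_zero])
    (by
      intro s
      refine ev_ext fun t => ?_
      rw [ev_post, map_sub, ev_smul, hc, hβ, hβ, shift _ _ z2, map_sub, apply_ite (Hm.post nU),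
        apply_ite (Hm.post nU), map_zero])
    (by
      refine ev_ext fun t => ?_
      have e0 : Hm.post nI (Hm.post a' z) = Hm.post a (Hm.post nU z) :=
        Hm.ext fun m => (H.sq _).symm
      have e1 : ev t (Hm.post nI D - Hm.post a β') = t • (Hm.post a β - Hm.post nI ε) := by
        rw [map_sub, ev_post, ev_post, hD, hβ, map_sub, map_sub, apply_ite (Hm.post nI),
          apply_ite (Hm.post a), map_zero, map_zero, e0, post_smul nI H.e4, post_smul a H.e2,
          smul_sub]
        abel
      rw [e1, hy, tr_apply, map_sum, Finset.smul_sum,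
        ← Equiv.sum_comp (Equiv.mulLeft t) fun x => ev t (x • y')]
      simp only [ev_smul, hy', Equiv.coe_mulLeft, mul_inv_rev, inv_mul_cancel_right, inv_inv,
        smul_sub, mul_smul, Finset.sum_sub_distrib, inv_eq_one, mul_assoc, inv_mul_cancel,
        inv_mul_cancel_left, mul_one]
      rw [Finset.sum_eq_single (1 : P) (f := fun x : P => t • x • if x = 1 then ∑ s, y s else 0)
        (fun b _ hb => by rw [if_neg hb, smul_zero, smul_zero]) (by simp), if_pos rfl, one_smul,
        Finset.smul_sum])
  refine ⟨z - ev 1 u, ?_⟩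
  have e : ∀ s : P, s • (z - ev 1 u) = (if s = 1 then z else 0) - ev s u := by
    intro s
    have e1 := congrArg (ev s) (hu s)
    rw [hc, map_sub, ev_smul, inv_mul_cancel, if_pos rfl] at e1
    rw [smul_sub, hz, eq_add_of_sub_eq e1.symm]
    abel
  rw [tr_apply]
  simp only [e]
  rw [Finset.sum_sub_distrib, ev_sum]
  simp

end Pool.Agent.MP_db5b97_nt.H18
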